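import Pool.Agent.helper3.T6R.Spec
import Pool.Agent.helper59.T5.DYB

/-! Row t6r:RBL (MP_16912e_nt) -/

set_option autoImplicit false

namespace Pool.Agent.T6R

open Finset NumberField Pool.Agent.helper3.FT Pool.Agent.helper47.RA Pool.Agent.T5 Pool.Agent.T6
open scoped nonZeroDivisors

theorem RBL_cover (h L m : ℝ) (hh : 0 < h) (n : ℕ) (hL : 2 * L ≤ n * h) (hm : |m| ≤ L) :
    ∃ i ∈ range (n + 1), -L + ((i : ℝ) - 1) * h < m ∧ m ≤ -L + ((i : ℝ) - 1) * h + h := by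
  have hm' := abs_le.1 hm
  have h0 : 0 ≤ (m + L) / h := div_nonneg (by linarith [hm'.1]) hh.le
  have h1 := Nat.le_ceil ((m + L) / h)
  have h2 := Nat.ceil_lt_add_one h0
  rw [div_le_iff₀ hh] at h1
  refine ⟨⌈(m + L) / h⌉₊, ?_, ?_, ?_⟩
  · rw [mem_range, Nat.lt_succ_iff, Nat.ceil_le, div_le_iff₀ hh]
    linarith [hm'.2]
  · have h3 : ((⌈(m + L) / h⌉₊ : ℝ) - 1) < (m + L) / h := by linarith
    rw [lt_div_iff₀ hh] at h3
    linarith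
  · linarith

theorem RBL_mono (N δ c x y : ℝ) (hN : 1 ≤ N) (hc : 1 ≤ c) (hx1 : 1 ≤ x) (hy1 : 1 ≤ y)
    (hx : x ≤ N ^ (1 / 8 - δ / 4)) (hy : y ≤ c * N ^ (1 / 8 + δ / 16)) (a b : ℕ) (hb : b ≤ 6)
    (he : a * (1 / 8 - δ / 4) + b * (1 / 8 + δ / 16) ≤ 1 - 3 * δ / 4) :
    x ^ a * y ^ b ≤ c ^ 6 * N ^ (1 - 3 * δ / 4) := by
  have hN0 : 0 < N := by linarith
  have h1 : x ^ a ≤ N ^ ((1 / 8 - δ / 4) * a) := by
    rw [Real.rpow_mul hN0.le, Real.rpow_natCast]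
    exact pow_le_pow_left₀ (by linarith) hx a
  have h2 : y ^ b ≤ c ^ b * N ^ ((1 / 8 + δ / 16) * b) := by
    rw [Real.rpow_mul hN0.le, Real.rpow_natCast, ← mul_pow]
    exact pow_le_pow_left₀ (by linarith) hy b
  have h3 : c ^ b ≤ c ^ 6 := pow_le_pow_right₀ hc hb
  calc x ^ a * y ^ b ≤ N ^ ((1 / 8 - δ / 4) * a) * (c ^ b * N ^ ((1 / 8 + δ / 16) * b)) :=
        mul_le_mul h1 h2 (by positivity) (by positivity)
    _ ≤ N ^ ((1 / 8 - δ / 4) * a) * (c ^ 6 * N ^ ((1 / 8 + δ / 16) * b)) :=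
        mul_le_mul_of_nonneg_left (mul_le_mul_of_nonneg_right h3 (by positivity)) (by positivity)
    _ = c ^ 6 * N ^ ((1 / 8 - δ / 4) * a + (1 / 8 + δ / 16) * b) := by
        rw [Real.rpow_add hN0]
        ring
    _ ≤ c ^ 6 * N ^ (1 - 3 * δ / 4) := by
        refine mul_le_mul_of_nonneg_left (Real.rpow_le_rpow_of_exponent_le hN ?_) (by positivity)
        linarith

theorem RBL_sb (N δ c x y S : ℝ) (hδ : 0 < δ) (hδ1 : δ ≤ 1 / 10) (hN : 1 ≤ N) (hc : 1 ≤ c) (hx1 : 1 ≤ x) (hy1 : 1 ≤ y)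
    (hS : 0 ≤ S) (hS1 : S ≤ 1)
    (hx : x ≤ N ^ (1 / 8 - δ / 4)) (hy : y ≤ c * N ^ (1 / 8 + δ / 16)) :
    SB x y S ≤ 9 * c ^ 6 * N ^ (1 - 3 * δ / 4) := by
  have hm := RBL_mono N δ c x y hN hc hx1 hy1 hx hy
  have m1 := hm 4 4 (by norm_num) (by push_cast; linarith)
  have m2 := hm 6 0 (by norm_num) (by push_cast; linarith)
  have m3 := hm 0 6 (by norm_num) (by push_cast; linarith)
  have m4 := hm 5 1 (by norm_num) (by push_cast; linarith)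
  have m5 := hm 1 6 (by norm_num) (by push_cast; linarith)
  have m6 := hm 6 1 (by norm_num) (by push_cast; linarith)
  have m7 := hm 7 0 (by norm_num) (by push_cast; linarith)
  have m8 := hm 6 2 (by norm_num) (by push_cast; linarith)
  have m9 := hm 7 1 (by norm_num) (by push_cast; linarith)
  have hS2 : S ^ 2 ≤ 1 := pow_le_one₀ hS hS1
  have hS3 : S ^ 3 ≤ 1 := pow_le_one₀ hS hS1
  have e1 : (y ^ 6 + x ^ 5 * y) * S ≤ y ^ 6 + x ^ 5 * y := mul_le_of_le_one_right (by positivity) hS1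
  have e2 : (y ^ 6 * x + x ^ 6 * y + x ^ 7) * S ^ 2 ≤ y ^ 6 * x + x ^ 6 * y + x ^ 7 :=
    mul_le_of_le_one_right (by positivity) hS2
  have e3 : (x ^ 6 * y ^ 2 + x ^ 7 * y) * S ^ 3 ≤ x ^ 6 * y ^ 2 + x ^ 7 * y :=
    mul_le_of_le_one_right (by positivity) hS3
  unfold SB
  simp only [pow_one, pow_zero, mul_one, one_mul] at m1 m2 m3 m4 m5 m6 m7 m8 m9
  nlinarith

theorem RBL_root (N a b Z u : ℝ) (hN : 1 ≤ N) (hu : 0 ≤ u) (h4 : u ^ 4 = Z) (hZ : Z ≤ N ^ a) (hab : a = b * 4) :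
    u ≤ N ^ b := by
  have hN0 : 0 < N := by linarith
  have h1 : u ^ 4 ≤ (N ^ b) ^ 4 := by
    rw [h4, ← Real.rpow_natCast, ← Real.rpow_mul hN0.le]
    push_cast
    rw [← hab]
    exact hZ
  exact (pow_le_pow_iff_left₀ hu (by positivity) (by norm_num)).1 h1

theorem RBL_fin (N δ K : ℝ) (hδ : 0 < δ) (hK : 0 ≤ K) (hN : 1 ≤ N) (hNK : K ^ (16 / (7 * δ)) ≤ N) :
    K * (N ^ (δ / 16) * N ^ (1 - 3 * δ / 4)) ≤ N ^ (1 - δ / 4) := by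
  have hN0 : 0 < N := by linarith
  have h1 : K ≤ N ^ (7 * δ / 16) := by
    have h2 : (K ^ (16 / (7 * δ))) ^ (7 * δ / 16) ≤ N ^ (7 * δ / 16) :=
      Real.rpow_le_rpow (by positivity) hNK (by positivity)
    rw [← Real.rpow_mul hK] at h2
    have h3 : 16 / (7 * δ) * (7 * δ / 16) = 1 := by field_simp
    rw [h3, Real.rpow_one] at h2
    exact h2
  calc K * (N ^ (δ / 16) * N ^ (1 - 3 * δ / 4))
      ≤ N ^ (7 * δ / 16) * (N ^ (δ / 16) * N ^ (1 - 3 * δ / 4)) :=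
        mul_le_mul_of_nonneg_right h1 (by positivity)
    _ = N ^ (1 - δ / 4) := by
        rw [← Real.rpow_add hN0, ← Real.rpow_add hN0]
        congr 1
        ring

theorem RBL_xy (N δ c x y : ℝ) (hδ : 0 < δ) (hδ1 : δ ≤ 1 / 10) (hN : 1 ≤ N) (hc : 1 ≤ c) (hx1 : 1 ≤ x) (hy1 : 1 ≤ y)
    (hx : x ≤ N ^ (1 / 8 - δ / 4)) (hy : y ≤ c * N ^ (1 / 8 + δ / 16)) :
    (x * y) ^ (δ / 4) ≤ c * N ^ (δ / 16) := by
  have hN0 : 0 < N := by linarith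
  have h1 : x * y ≤ c * N ^ (1 / 4 : ℝ) := by
    calc x * y ≤ N ^ (1 / 8 - δ / 4) * (c * N ^ (1 / 8 + δ / 16)) :=
          mul_le_mul hx hy (by linarith) (by positivity)
      _ = c * N ^ ((1 / 8 - δ / 4) + (1 / 8 + δ / 16)) := by
          rw [Real.rpow_add hN0 (1 / 8 - δ / 4) (1 / 8 + δ / 16)]
          ring
      _ ≤ c * N ^ (1 / 4 : ℝ) := by
          refine mul_le_mul_of_nonneg_left (Real.rpow_le_rpow_of_exponent_le hN ?_) (by linarith)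
          linarith
  calc (x * y) ^ (δ / 4) ≤ (c * N ^ (1 / 4 : ℝ)) ^ (δ / 4) :=
        Real.rpow_le_rpow (by positivity) h1 (by positivity)
    _ = c ^ (δ / 4) * N ^ (δ / 16) := by
        rw [Real.mul_rpow (by linarith) (by positivity), ← Real.rpow_mul hN0.le]
        congr 2
        ring
    _ ≤ c * N ^ (δ / 16) := by
        refine mul_le_mul_of_nonneg_right ?_ (by positivity)
        calc c ^ (δ / 4) ≤ c ^ (1 : ℝ) := Real.rpow_le_rpow_of_exponent_le hc (by linarith)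
          _ = c := Real.rpow_one c

set_option maxHeartbeats 4000000 in
open Classical in
theorem RBL_one (hRB0 : RB0_stmt) (κ δ : ℝ) (hκ : 0 < κ) (hκ1 : κ ≤ 1) (hδ : 0 < δ) (hδ1 : δ ≤ 1 / 10) :
    ∃ N₀ : ℝ, ∀ N Y Y₂ : ℝ, N₀ ≤ N → 1 ≤ Y → 1 ≤ Y₂ →
    Y ≤ N ^ (1 / 2 - δ) → Y₂ ≤ N ^ (1 / 2 + δ / 4) → ∀ F : Finset Tpl, (∀ t ∈ F, Bx κ N Y Y₂ t) →
    (F.card : ℝ) ≤ N ^ (1 - δ / 4) := by
  obtain ⟨C, hC1, hC⟩ := hRB0 (δ / 4) (by positivity)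
  obtain ⟨c, hcdef⟩ : ∃ c, c = √(2 / κ) := ⟨_, rfl⟩
  have h2κ : 2 ≤ 2 / κ := by
    rw [le_div_iff₀ hκ]
    linarith
  have hc2 : c ^ 2 = 2 / κ := by rw [hcdef, Real.sq_sqrt (by linarith)]
  have hc1 : 1 ≤ c := by
    rw [hcdef]
    exact Real.one_le_sqrt.2 (by linarith)
  obtain ⟨n, hn⟩ : ∃ n : ℕ, n = ⌈4 / κ⌉₊ := ⟨_, rfl⟩
  have hn4 : 4 / κ ≤ n := by rw [hn]; exact Nat.le_ceil _
  have hlog : 0 ≤ Real.log (2 / κ) := Real.log_nonneg (by linarith)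
  obtain ⟨P, hP⟩ : ∃ P : ℝ, P = (2 + 2 * Real.log (2 / κ)) ^ 2 * (((n : ℝ) + 1) * 3) := ⟨_, rfl⟩
  have hP0 : 0 ≤ P := by rw [hP]; positivity
  obtain ⟨K, hK⟩ : ∃ K : ℝ, K = P * C * c * (9 * c ^ 6) := ⟨_, rfl⟩
  have hK0 : 0 ≤ K := by rw [hK]; positivity
  refine ⟨max 1 (K ^ (16 / (7 * δ))), fun N Y Y₂ hN hY hY₂ hYN hY₂N F hF => ?_⟩
  have hN1 : 1 ≤ N := (le_max_left _ _).trans hN
  have hNK : K ^ (16 / (7 * δ)) ≤ N := (le_max_right _ _).trans hN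
  have hN0 : 0 < N := by linarith
  rcases F.eq_empty_or_nonempty with rfl | ⟨t₀, ht₀⟩
  · simp only [card_empty, Nat.cast_zero]
    positivity
  -- the numbers
  obtain ⟨x, hx⟩ : ∃ x, x = √(√Y) := ⟨_, rfl⟩
  obtain ⟨u, hu⟩ : ∃ u, u = √(√Y₂) := ⟨_, rfl⟩
  have hx2 : x ^ 2 = √Y := by rw [hx, Real.sq_sqrt (Real.sqrt_nonneg _)]
  have hu2 : u ^ 2 = √Y₂ := by rw [hu, Real.sq_sqrt (Real.sqrt_nonneg _)]
  have hsY : √Y ^ 2 = Y := Real.sq_sqrt (by linarith)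
  have hsY₂ : √Y₂ ^ 2 = Y₂ := Real.sq_sqrt (by linarith)
  have hx4 : x ^ 4 = Y := by
    rw [← hsY, ← hx2]
    ring
  have hu4 : u ^ 4 = Y₂ := by
    rw [← hsY₂, ← hu2]
    ring
  have hx1 : 1 ≤ x := by
    rw [hx]
    exact Real.one_le_sqrt.2 (Real.one_le_sqrt.2 hY)
  have hu1 : 1 ≤ u := by
    rw [hu]
    exact Real.one_le_sqrt.2 (Real.one_le_sqrt.2 hY₂)
  have hxN : x ≤ N ^ (1 / 8 - δ / 4) :=
    RBL_root N (1 / 2 - δ) (1 / 8 - δ / 4) Y x hN1 (by linarith) hx4 hYN (by ring)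
  have huN : u ≤ N ^ (1 / 8 + δ / 16) :=
    RBL_root N (1 / 2 + δ / 4) (1 / 8 + δ / 16) Y₂ u hN1 (by linarith) hu4 hY₂N (by ring)
  obtain ⟨y, hy⟩ : ∃ y, y = c * u := ⟨_, rfl⟩
  have hy1 : 1 ≤ y := by
    rw [hy]
    nlinarith
  have hyN : y ≤ c * N ^ (1 / 8 + δ / 16) := by
    rw [hy]
    exact mul_le_mul_of_nonneg_left huN (by linarith)
  have hy2 : y ^ 2 = 2 / κ * √Y₂ := by
    rw [hy, mul_pow, hc2, hu2]
  have hy4 : y ^ 4 = (2 / κ) ^ 2 * Y₂ := by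
    have h : y ^ 4 = (y ^ 2) ^ 2 := by ring
    rw [h, hy2, mul_pow, hsY₂]
  obtain ⟨S, hS⟩ : ∃ S, S = √Y * √Y₂ / √N := ⟨_, rfl⟩
  have hsYp : 0 < √Y := Real.sqrt_pos.2 (by linarith)
  have hsY₂p : 0 < √Y₂ := Real.sqrt_pos.2 (by linarith)
  have hsNp : 0 < √N := Real.sqrt_pos.2 hN0
  have hS0 : 0 < S := by rw [hS]; positivity
  have hS1 : S ≤ 1 := by
    rw [hS, div_le_one hsNp, ← Real.sqrt_mul (by linarith)]
    refine Real.sqrt_le_sqrt ?_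
    calc Y * Y₂ ≤ N ^ (1 / 2 - δ) * N ^ (1 / 2 + δ / 4) :=
          mul_le_mul hYN hY₂N (by linarith) (by positivity)
      _ = N ^ ((1 / 2 - δ) + (1 / 2 + δ / 4)) := (Real.rpow_add hN0 _ _).symm
      _ ≤ N ^ (1 : ℝ) := Real.rpow_le_rpow_of_exponent_le hN1 (by linarith)
      _ = N := Real.rpow_one N
  have hsN : sN N Y Y₂ = √Y * S := by
    unfold sN
    rw [hS]
    calc Y * √Y₂ / √N = (√Y ^ 2) * √Y₂ / √N := by rw [hsY]
      _ = √Y * (√Y * √Y₂ / √N) := by ring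
  have hsK : sK N Y Y₂ = √Y₂ * S := by
    unfold sK
    rw [hS]
    calc √Y * Y₂ / √N = √Y * (√Y₂ ^ 2) / √N := by rw [hsY₂]
      _ = √Y₂ * (√Y * √Y₂ / √N) := by ring
  have hsM : sM N Y Y₂ = Y * S := by
    unfold sM
    rw [hS]
    ring
  have hsG : sG N Y Y₂ = Y₂ * S := by
    unfold sG
    rw [hS]
    ring
  have hsN0 : 0 < sN N Y Y₂ := by rw [hsN]; positivity
  have hsK0 : 0 < sK N Y Y₂ := by rw [hsK]; positivity
  have hb₀ := hF t₀ ht₀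
  have hA1 : max 1 (κ * sN N Y Y₂) ≤ 2 * sN N Y Y₂ := by
    refine max_le ?_ (by nlinarith)
    have h : (1 : ℝ) ≤ t₀.1.1 := by exact_mod_cast hb₀.tt.n1
    exact h.trans hb₀.n2
  have hA2 : max 1 (κ * sK N Y Y₂) ≤ 2 * sK N Y Y₂ := by
    refine max_le ?_ (by nlinarith)
    have h : (1 : ℝ) ≤ t₀.1.2 := by exact_mod_cast hb₀.tt.k1
    exact h.trans hb₀.k2
  obtain ⟨I, hI1, hI2, hI3⟩ := DYB (max 1 (κ * sN N Y Y₂)) (2 * sN N Y Y₂) (le_max_left _ _) hA1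
  obtain ⟨J, hJ1, hJ2, hJ3⟩ := DYB (max 1 (κ * sK N Y Y₂)) (2 * sK N Y Y₂) (le_max_left _ _) hA2
  have hquot : ∀ s : ℝ, 0 < s → Real.log (2 * s / max 1 (κ * s)) ≤ Real.log (2 / κ) := by
    intro s hs
    refine Real.log_le_log (by positivity) ?_
    rw [div_le_div_iff₀ (by positivity) hκ]
    have h := le_max_right 1 (κ * s)
    nlinarith
  have hI1' : (I.card : ℝ) ≤ 2 + 2 * Real.log (2 / κ) := hI1.trans (by linarith [hquot _ hsN0])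
  have hJ1' : (J.card : ℝ) ≤ 2 + 2 * Real.log (2 / κ) := hJ1.trans (by linarith [hquot _ hsK0])
  -- the pieces
  let m0 : ℕ → ℕ → ℝ := fun N₁ i => -(2 / κ * (x ^ 2 * N₁)) + ((i : ℝ) - 1) * (x ^ 2 * N₁)
  let z0 : ℕ → ℝ := fun j => -Y + ((j : ℝ) - 1) * Y
  let pc : (ℕ × ℕ) × (ℕ × ℕ) → Finset Tpl := fun v => F.filter (fun t => v.1.1 < 2 * t.1.1 ∧ t.1.1 ≤ v.1.1 ∧
    v.1.2 < 2 * t.1.2 ∧ t.1.2 ≤ v.1.2 ∧ m0 v.1.1 v.2.1 < t.2.1 ∧ (t.2.1 : ℝ) ≤ m0 v.1.1 v.2.1 + x ^ 2 * v.1.1 ∧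
    z0 v.2.2 < t.2.2.2 ∧ (t.2.2.2 : ℝ) ≤ z0 v.2.2 + x ^ 4)
  have hsub : F ⊆ ((I ×ˢ J) ×ˢ (range (n + 1) ×ˢ range 3)).biUnion pc := by
    intro t ht
    have hb := hF t ht
    obtain ⟨N₁, hN₁, hN₂, hN₃⟩ := hI3 t.1.1 (max_le (by exact_mod_cast hb.tt.n1) hb.n1) hb.n2
    obtain ⟨K₁, hK₁, hK₂, hK₃⟩ := hJ3 t.1.2 (max_le (by exact_mod_cast hb.tt.k1) hb.k1) hb.k2
    obtain ⟨i1, i2, -⟩ := hI2 N₁ hN₁
    have i1' : (1 : ℝ) ≤ N₁ := by exact_mod_cast i1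
    have i3 : κ * sN N Y Y₂ ≤ N₁ := (le_max_right _ _).trans i2
    have hh : 0 < x ^ 2 * (N₁ : ℝ) := by positivity
    have hm : |(t.2.1 : ℝ)| ≤ 2 / κ * (x ^ 2 * N₁) := by
      refine hb.m2.trans ?_
      rw [hsM, hx2, div_mul_eq_mul_div, le_div_iff₀ hκ]
      rw [hsN] at i3
      calc 2 * (Y * S) * κ = 2 * ((√Y ^ 2) * S) * κ := by rw [hsY]
        _ = 2 * (√Y * (κ * (√Y * S))) := by ring
        _ ≤ 2 * (√Y * N₁) :=
            mul_le_mul_of_nonneg_left (mul_le_mul_of_nonneg_left i3 hsYp.le) (by norm_num)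
    obtain ⟨i, hi, hi1, hi2⟩ := RBL_cover (x ^ 2 * N₁) (2 / κ * (x ^ 2 * N₁)) t.2.1 hh n (by
      have h : 2 * (2 / κ * (x ^ 2 * (N₁ : ℝ))) = 4 / κ * (x ^ 2 * N₁) := by ring
      rw [h]
      exact mul_le_mul_of_nonneg_right hn4 hh.le) hm
    obtain ⟨j, hj, hj1, hj2⟩ := RBL_cover Y Y t.2.2.2 (by linarith) 2 (by push_cast; linarith) hb.z2
    rw [Finset.mem_biUnion]
    refine ⟨((N₁, K₁), (i, j)), ?_, ?_⟩
    · rw [mem_product, mem_product, mem_product]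
      exact ⟨⟨hN₁, hK₁⟩, hi, hj⟩
    · change t ∈ F.filter _
      rw [Finset.mem_filter]
      refine ⟨ht, hN₂, hN₃, hK₂, hK₃, hi1, hi2, hj1, ?_⟩
      rw [hx4]
      exact hj2
  have hSB0 : 0 ≤ SB x y S := by
    unfold SB
    positivity
  have hpc : ∀ v ∈ (I ×ˢ J) ×ˢ (range (n + 1) ×ˢ range 3),
      ((pc v).card : ℝ) ≤ C * (x * y) ^ (δ / 4) * SB x y S := by
    intro v hv
    rw [mem_product, mem_product] at hv
    obtain ⟨i1, i2, i3⟩ := hI2 v.1.1 hv.1.1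
    obtain ⟨j1, j2, j3⟩ := hJ2 v.1.2 hv.1.2
    have i4 : κ * sN N Y Y₂ ≤ v.1.1 := (le_max_right _ _).trans i2
    rw [hsN] at i3 i4
    rw [hsK] at j3
    refine hC x y S (m0 v.1.1 v.2.1) (z0 v.2.2) v.1.1 v.1.2 hx1 hy1 hS0 hS1 i1 j1 ?_ ?_ ?_ (pc v) ?_
    · rw [hx2]
      nlinarith [mul_pos hsYp hS0]
    · rw [hy2]
      have h : 2 * (√Y₂ * S) ≤ 2 / κ * (√Y₂ * S) :=
        mul_le_mul_of_nonneg_right h2κ (by positivity)
      nlinarith [mul_pos hsY₂p hS0]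
    · rw [hx2, hy2]
      calc √Y * (v.1.2 : ℝ) ≤ √Y * (2 * (2 * (√Y₂ * S))) := mul_le_mul_of_nonneg_left j3 hsYp.le
        _ = 2 * (2 / κ * √Y₂) * (κ * (√Y * S)) := by
            field_simp
        _ ≤ 2 * (2 / κ * √Y₂) * v.1.1 := mul_le_mul_of_nonneg_left i4 (by positivity)
    · intro t ht
      change t ∈ F.filter _ at ht
      rw [Finset.mem_filter] at ht
      obtain ⟨htF, a1, a2, a3, a4, a5, a6, a7, a8⟩ := ht
      refine ⟨(hF t htF).tt, a1, a2, a3, a4, a5, a6, ?_, a7, a8⟩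
      have hg := (hF t htF).g2
      rw [hsG] at hg
      rw [hx2, hy4]
      calc √Y * |(t.2.2.1 : ℝ)| ≤ √Y * (2 * (Y₂ * S)) := mul_le_mul_of_nonneg_left hg hsYp.le
        _ = 2 / κ * Y₂ * (κ * (√Y * S)) := by
            field_simp
        _ ≤ 2 / κ * Y₂ * v.1.1 := mul_le_mul_of_nonneg_left i4 (by positivity)
        _ ≤ (2 / κ) ^ 2 * Y₂ * v.1.1 := by
            have h : 2 / κ ≤ (2 / κ) ^ 2 := by nlinarith
            have h' : 0 ≤ Y₂ * (v.1.1 : ℝ) := by positivity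
            calc 2 / κ * Y₂ * v.1.1 = 2 / κ * (Y₂ * v.1.1) := by ring
              _ ≤ (2 / κ) ^ 2 * (Y₂ * v.1.1) := mul_le_mul_of_nonneg_right h h'
              _ = _ := by ring
  have hcard : (F.card : ℝ) ≤ P * (C * (x * y) ^ (δ / 4) * SB x y S) := by
    have h1 : (F.card : ℝ) ≤ ∑ v ∈ (I ×ˢ J) ×ˢ (range (n + 1) ×ˢ range 3), ((pc v).card : ℝ) := by
      have h := (Finset.card_le_card hsub).trans Finset.card_biUnion_le
      exact_mod_cast h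
    refine h1.trans ((Finset.sum_le_card_nsmul _ _ _ hpc).trans ?_)
    rw [nsmul_eq_mul]
    refine mul_le_mul_of_nonneg_right ?_ (by positivity)
    rw [card_product, card_product, card_product, card_range, card_range, hP]
    push_cast
    refine mul_le_mul_of_nonneg_right ?_ (by positivity)
    rw [sq]
    exact mul_le_mul hI1' hJ1' (Nat.cast_nonneg _) (by linarith)
  have hsb := RBL_sb N δ c x y S hδ hδ1 hN1 hc1 hx1 hy1 hS0.le hS1 hxN hyN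
  have hxy := RBL_xy N δ c x y hδ hδ1 hN1 hc1 hx1 hy1 hxN hyN
  refine hcard.trans (le_trans ?_ (RBL_fin N δ K hδ hK0 hN1 hNK))
  have h1 : C * (x * y) ^ (δ / 4) * SB x y S ≤ C * (c * N ^ (δ / 16)) * (9 * c ^ 6 * N ^ (1 - 3 * δ / 4)) :=
    mul_le_mul (mul_le_mul_of_nonneg_left hxy (by linarith)) hsb hSB0 (by positivity)
  calc P * (C * (x * y) ^ (δ / 4) * SB x y S)
      ≤ P * (C * (c * N ^ (δ / 16)) * (9 * c ^ 6 * N ^ (1 - 3 * δ / 4))) :=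
        mul_le_mul_of_nonneg_left h1 hP0
    _ = K * (N ^ (δ / 16) * N ^ (1 - 3 * δ / 4)) := by
        rw [hK]
        ring

theorem RBL (hRB0 : RB0_stmt) : RBL_stmt := by
  intro κ δ hκ hδ hδ1
  obtain ⟨N₀, h⟩ := RBL_one hRB0 (min κ 1) δ (lt_min hκ one_pos) (min_le_right _ _) hδ hδ1
  refine ⟨max N₀ 1, fun N Y Y₂ hN hY hY₂ hYN hY₂N F hF => ?_⟩
  have hN1 : 1 ≤ N := (le_max_right _ _).trans hN
  refine h N Y Y₂ ((le_max_left _ _).trans hN) hY hY₂ hYN hY₂N F fun t ht => ?_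
  have hb := hF t ht
  have hsN0 : 0 ≤ sN N Y Y₂ := by
    unfold sN
    positivity
  have hsK0 : 0 ≤ sK N Y Y₂ := by
    unfold sK
    positivity
  exact ⟨hb.tt, (mul_le_mul_of_nonneg_right (min_le_left _ _) hsN0).trans hb.n1, hb.n2,
    (mul_le_mul_of_nonneg_right (min_le_left _ _) hsK0).trans hb.k1, hb.k2, hb.m2, hb.g2, hb.z2⟩

end Pool.Agent.T6R
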